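import Mathlib

set_option autoImplicit false
open Equiv Nat

namespace Pool.Agent.H.MP_2df8e9_al

variable (F : Type) {A : Type} [Field F] [Ring A] [Algebra F A]

/-- The alternating product. -/
noncomputable def alt (n : ℕ) : A [⋀^Fin n]→ₗ[F] A :=
  MultilinearMap.alternatization (MultilinearMap.mkPiAlgebraFin F n A)

theorem alt_ap {n : ℕ} (x : Fin n → A) :
    alt F n x = ∑ σ : Perm (Fin n), Perm.sign σ • (List.ofFn fun k => x (σ k)).prod := by
  simp [alt, MultilinearMap.alternatization_apply]

theorem alt_succ {n : ℕ} (x : Fin (n + 1) → A) :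
    alt F (n + 1) x = ∑ i : Fin (n + 1), (-1 : F) ^ (i : ℕ) • (x i * alt F n fun k => x (i.succAbove k)) := by
  rw [alt_ap, Finset.univ_perm_fin_succ, ← Finset.univ_product_univ]
  simp only [Finset.sum_map, Equiv.toEmbedding_apply, Finset.sum_product]
  refine Finset.sum_congr rfl fun i _ => Fin.cases ?_ (fun i => ?_) i
  · simp [alt_ap, Finset.mul_sum, List.ofFn_succ, Perm.decomposeFin.symm_sign, mul_smul_comm]
  · have := (alt F n).map_perm (fun k => x (i.succ.succAbove k)) i.cycleRange
    rw [Fin.sign_cycleRange, alt_ap] at this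
    simp only [Function.comp_apply, Fin.succAbove_cycleRange] at this
    simp only [List.ofFn_succ, Perm.decomposeFin.symm_sign, Perm.decomposeFin_symm_apply_zero,
      Perm.decomposeFin_symm_apply_succ, List.prod_cons, if_neg (Fin.succ_ne_zero i), neg_mul, one_mul,
      Units.neg_smul, ← mul_smul_comm, Finset.sum_neg_distrib, ← Finset.mul_sum, this, Fin.val_succ, pow_succ]
    rcases neg_one_pow_eq_or ℤ (i : ℕ) with h | h <;> rcases Nat.even_or_odd (i : ℕ) with e | e <;>
      simp [e.neg_one_pow]

variable {F}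

theorem pass {n : ℕ} (y : A) (x : Fin n → A) (h : ∀ i, y * x i = -(x i * y)) :
    y * (List.ofFn x).prod = (-1 : F) ^ n • ((List.ofFn x).prod * y) := by
  induction n with
  | zero => simp
  | succ n ih =>
    rw [List.ofFn_succ, List.prod_cons, ← mul_assoc, h, neg_mul, mul_assoc, ih _ fun i => h _]
    simp [pow_succ, mul_assoc]

theorem front {n : ℕ} (x : Fin (n + 1) → A) (h : ∀ i j, i ≠ j → x i * x j = -(x j * x i)) (i : Fin (n + 1)) :
    (-1 : F) ^ (i : ℕ) • (x i * (List.ofFn fun k => x (i.succAbove k)).prod) = (List.ofFn x).prod := by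
  induction n with
  | zero => fin_cases i; simp
  | succ n ih =>
    refine Fin.cases (by simp [List.ofFn_succ]) (fun i => ?_) i
    rw [List.ofFn_succ (f := x), List.prod_cons,
      ← ih (fun k => x k.succ) (fun a b e => h _ _ fun q => e (Fin.succ_injective _ q)) i, List.ofFn_succ,
      List.prod_cons, ← mul_assoc, Fin.succ_succAbove_zero, h _ _ (Fin.succ_ne_zero i)]
    simp [pow_succ, mul_assoc]

theorem altA {n : ℕ} (x : Fin n → A) (h : ∀ i j, i ≠ j → x i * x j = -(x j * x i)) :
    alt F n x = (n ! : F) • (List.ofFn x).prod := by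
  induction n with
  | zero => simp [alt_ap]
  | succ n ih =>
    rw [alt_succ, Finset.sum_congr rfl fun i _ => by
      rw [ih _ fun a b e => h _ _ fun q => e (Fin.succAbove_right_injective q), mul_smul_comm, smul_comm, front x h]]
    simp [factorial_succ, ← Nat.cast_smul_eq_nsmul F, smul_smul]

theorem altC {n : ℕ} (z : A) (x : Fin n → A) (h : ∀ i j, i ≠ j → x i * x j = -(x j * x i))
    (c : ∀ i, x i * z = z * x i) :
    alt F (n + 1) (Fin.cons z x : Fin (n + 1) → A) = (if Even n then (n ! : F) else 0) • (z * (List.ofFn x).prod) := by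
  induction n with
  | zero => simp [alt_ap]
  | succ n ih =>
    have e : ∀ i : Fin (n + 1), (fun k => (Fin.cons z x : Fin (n + 2) → A) (i.succ.succAbove k)) =
        Fin.cons z fun k => x (i.succAbove k) := fun i => funext fun k => Fin.cases (by simp) (by simp) k
    rw [alt_succ, Fin.sum_univ_succ, Finset.sum_congr rfl fun i _ => by
      rw [e, ih _ (fun a b e => h _ _ fun q => e (Fin.succAbove_right_injective q)) fun _ => c _, Fin.cons_succ,
        mul_smul_comm, ← mul_assoc, c, mul_assoc, Fin.val_succ, _root_.pow_succ', mul_smul, smul_comm ((-1 : F) ^ _),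
        ← mul_smul_comm, front x h]]
    simp only [Fin.succAbove_zero, Fin.cons_succ, Fin.cons_zero, altA x h]
    by_cases q : Even n <;> simp [Nat.even_add_one, q, factorial_succ, ← Nat.cast_smul_eq_nsmul F, smul_smul]

theorem sq {n : ℕ} (x : Fin n → A) (h : ∀ i j, i ≠ j → x i * x j = -(x j * x i)) (s : ∀ i, x i * x i = 1) :
    ∃ w : F, w ≠ 0 ∧ (List.ofFn x).prod * (List.ofFn x).prod = w • 1 := by
  induction n with
  | zero => exact ⟨1, by simp⟩
  | succ n ih =>
    obtain ⟨w, w0, e⟩ := ih (fun k => x k.succ) (fun a b e => h _ _ fun q => e (Fin.succ_injective _ q)) fun _ => s _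
    refine ⟨(-1) ^ n * w, by simp [w0], ?_⟩
    rw [List.ofFn_succ, List.prod_cons]
    nth_rw 1 [pass (F := F) (x 0) _ fun i => h _ _ (Fin.succ_ne_zero i).symm]
    rw [smul_mul_assoc, mul_assoc, ← mul_assoc (x 0), s, one_mul, e, smul_smul]

theorem gens [IsAlgClosed F] [CharZero F] [Nontrivial A] {r : ℕ} (hr : Even r) (r0 : 0 < r) (x : Fin (r + 1) → A)
    (h : ∀ i j, i ≠ j → x i * x j = -(x j * x i)) (s : ∀ i, x i * x i = 1) :
    ∃ e : Fin (r + 2) → A, LinearIndependent F e ∧
      ∀ i : Fin (r + 2), alt F (r + 1) (fun k => e (i.succAbove k)) = (-1 : F) ^ (r + 1 + i) • e i := by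
  obtain ⟨w, w0, hw⟩ := sq (F := F) x h s
  set ω := (List.ofFn x).prod
  have p : ∀ l : Fin (r + 1), (List.ofFn fun k => x (l.succAbove k)).prod = (-1 : F) ^ (l : ℕ) • (x l * ω) :=
    fun l => by
      simp only [ω]
      rw [← front (F := F) x h l, mul_smul_comm, ← mul_assoc, s, one_mul, smul_smul, ← mul_pow]; simp
  have c : ∀ l, x l * ω = ω * x l := fun l => by
    simp only [ω]
    rw [← front (F := F) x h l, mul_smul_comm, smul_mul_assoc, mul_assoc,
      pass (F := F) (x l) _ fun i => h _ _ (Fin.succAbove_ne l i).symm, hr.neg_one_pow, one_smul]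
  obtain ⟨a, ha⟩ := IsAlgClosed.exists_pow_nat_eq (-((r ! : F) * (r + 1)! * w)⁻¹) (n := r + r) (by omega)
  have f0 : (r ! : F) * (r + 1)! * w ≠ 0 := by simp [w0, factorial_ne_zero]
  have a0 : a ≠ 0 := by rintro rfl; rw [zero_pow (by omega)] at ha; exact inv_ne_zero f0 (neg_eq_zero.1 ha.symm)
  refine ⟨Fin.cons ((-((r + 1)! * a ^ (r + 1))) • ω) fun k => a • x k, ?_, fun i => Fin.cases ?_ (fun l => ?_) i⟩
  · rw [Fintype.linearIndependent_iff]
    intro g hg
    rw [Fin.sum_univ_succ] at hg
    simp only [Fin.cons_zero, Fin.cons_succ, smul_smul] at hg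
    have k1 : ∀ j, g (Fin.succ j) = 0 := fun j => by
      obtain ⟨k, hk⟩ : ∃ k : Fin (r + 1), k ≠ j := by
        have : Nontrivial (Fin (r + 1)) := Fin.nontrivial_iff_two_le.2 (by omega)
        exact exists_ne j
      have cj : ∀ a i, x a * x i * x a = if i = a then x i else -x i := fun a i => by
        split_ifs with q
        · rw [q, s, one_mul]
        · rw [h _ _ (Ne.symm q), neg_mul, mul_assoc, s, mul_one]
      have := congrArg ((LinearMap.id + LinearMap.mulLeftRight F (x j, x j)) ∘ₗ
        (LinearMap.id - LinearMap.mulLeftRight F (x k, x k))) hg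
      rw [map_add, map_sum, Finset.sum_eq_single j (fun i _ n => by
        by_cases q : i = k <;> simp [cj, q, n, mul_add, add_mul]) (by simp)] at this
      have x0 : x j ≠ 0 := fun q => by simpa [q] using s j
      simp only [map_smul, LinearMap.comp_apply, LinearMap.sub_apply, LinearMap.id_apply, LinearMap.add_apply,
        LinearMap.mulLeftRight_apply, c, mul_assoc ω, s, mul_one, sub_self, map_zero, smul_zero, zero_add, cj,
        if_neg hk.symm, sub_neg_eq_add, ← two_smul F, smul_smul] at this
      rw [one_mul, ← two_smul F] at this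
      simpa [x0, a0] using this
    have : g 0 = 0 := by
      simp only [k1, zero_mul, zero_smul, Finset.sum_const_zero, add_zero] at hg
      have := congrArg (· * ω) hg
      simpa [hw, w0, a0, factorial_ne_zero, smul_smul] using this
    exact fun i => Fin.cases this k1 i
  · simp only [Fin.succAbove_zero, Fin.cons_succ, Fin.cons_zero]
    rw [(alt F _).map_smul_univ (fun _ => a), altA x h]
    simp [ω, smul_smul, _root_.pow_succ (-1 : F), hr.neg_one_pow, mul_comm]
  · have e : (fun k => (Fin.cons ((-((r + 1)! * a ^ (r + 1))) • ω) fun k => a • x k : Fin (r + 2) → A)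
        (l.succ.succAbove k)) = fun k => (Fin.cons (-((r + 1)! * a ^ (r + 1))) fun _ => a : Fin (r + 1) → F) k •
          (Fin.cons ω fun k => x (l.succAbove k) : Fin (r + 1) → A) k :=
      funext fun k => Fin.cases (by simp) (by simp) k
    rw [e, (alt F _).map_smul_univ, altC ω _ (fun a b e => h _ _ fun q => e (Fin.succAbove_right_injective q))
      fun _ => c _, if_pos hr, p, mul_smul_comm, c, ← mul_assoc, hw, Fin.cons_succ]
    simp only [smul_mul_assoc, one_mul, smul_smul, Fin.prod_univ_succ, Fin.cons_zero, Fin.cons_succ, Finset.prod_const,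
      Finset.card_univ, Fintype.card_fin, Fin.val_succ, pow_add, hr.neg_one_pow] 
    congr 1
    have : a ^ r * a ^ r * ((r ! : F) * (r + 1)! * w) = -1 := by rw [← pow_add, ha, neg_mul, inv_mul_cancel₀ f0]
    linear_combination (-(-1) ^ (l : ℕ) * a) * this

theorem cl (F : Type) [Field F] [CharZero F] (n : ℕ) : ∃ (A : Type) (_ : Ring A) (_ : Algebra F A) (_ : Nontrivial A)
    (x : Fin n → A), (∀ i j, i ≠ j → x i * x j = -(x j * x i)) ∧ ∀ i, x i * x i = 1 := by
  let Q : QuadraticForm F (Fin n → F) := QuadraticMap.weightedSumSquares F fun _ => (1 : F)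
  have := invertibleOfNonzero (two_ne_zero (α := F))
  refine ⟨CliffordAlgebra Q, inferInstance, inferInstance, inferInstance, fun i => CliffordAlgebra.ι Q (Pi.single i 1),
    fun i j e => CliffordAlgebra.ι_mul_ι_comm_of_isOrtho ?_, fun i => ?_⟩
  · simp only [QuadraticMap.IsOrtho, Q, QuadraticMap.weightedSumSquares_apply, ← Finset.sum_add_distrib]
    refine Finset.sum_congr rfl fun k _ => ?_
    by_cases a : k = i <;> by_cases b : k = j <;> simp_all
  · rw [CliffordAlgebra.ι_sq_scalar]
    simp [Q, QuadraticMap.weightedSumSquares_apply, Pi.single_apply]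

end Pool.Agent.H.MP_2df8e9_al
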